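import Pool.Agent.Q131.Mag.Main

/-!
# A finite lift can raise the magneto-spectral height

The base graph is the Cayley graph of `𝔽₂⁷` with nine generators, i.e. the quotient of the 9-cube
by the binary code `{0, 111111000, 000111111, 111000111}`.  Huang's signing of the cube has
magnetic adjacency spectrum `±3`; a potential on the quotient with `λ₁ = 6` would need flux `-1`
through all 4-cycles, which is impossible since two codewords of even weight meet in an odd number
of coordinates.
-/

namespace Pool.Agent.Results.MP_cbccc2_co.LiftRaisesHeight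

open Q131.Mag

/-- There are finite graphs `G`, `H` and a finite lift `p : H → G` with `ν(H) > ν(G)`; the first
three clauses say that `lam1` is the least eigenvalue and that the suprema are finite. -/
theorem result :
    ∃ (V W : Type) (_ : Fintype V) (_ : Fintype W) (G : SimpleGraph V) (H : SimpleGraph W)
      (p : W → V),
      (∀ σ : Potential G, IsLeast {μ : ℝ | IsEig G σ μ} (lam1 G σ)) ∧
      (∀ σ : Potential H, IsLeast {μ : ℝ | IsEig H σ μ} (lam1 H σ)) ∧
      BddAbove (Set.range (fun σ : Potential G => lam1 G σ)) ∧
      BddAbove (Set.range (fun σ : Potential H => lam1 H σ)) ∧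
      IsLift H G p ∧ height G ≤ 9 - Real.sqrt (9 + 1 / 18) ∧ 6 ≤ height H ∧
      height G < height H := by
  refine ⟨Fin 7 → ZMod 2, Fin 9 → ZMod 2, inferInstance, inferInstance, G7, Q9, pr,
    fun σ => lam1_isLeast G7 σ, fun σ => lam1_isLeast Q9 σ, ⟨9, ?_⟩, ⟨9, ?_⟩, isLift,
    height_G7_le, height_Q9, main.2⟩
  · rintro _ ⟨σ, rfl⟩
    have := lam1_le_deg G7 σ (n := 9) (cay_reg gen_inj)
    simpa using this
  · rintro _ ⟨σ, rfl⟩
    have := lam1_le_deg Q9 σ (n := 9) (cay_reg single_inj)
    simpa using this

end Pool.Agent.Results.MP_cbccc2_co.LiftRaisesHeight
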